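import Pool.Agent.W610.HY.Stm2

set_option autoImplicit false

namespace Pool.Agent.W433.HY.MVM

open Pool.Agent.W610.HY
open MeasureTheory Set Metric Filter Topology

theorem posLog_cont : Continuous Real.posLog := by
  have h : Real.posLog = fun x : ℝ => Real.log (max 1 |x|) := by
    funext x
    rcases le_total |x| 1 with h1 | h1
    · rw [max_eq_left h1, Real.log_one]
      exact (Real.posLog_eq_zero_iff x).2 h1
    · rw [max_eq_right h1, Real.log_abs]
      exact Real.posLog_eq_log h1
  rw [h]
  refine Continuous.log (by fun_prop) ?_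
  intro x
  have : (1 : ℝ) ≤ max 1 |x| := le_max_left _ _
  positivity

theorem main : Pool.Agent.W610.HY.MVM := by
  intro E _ P F hP hF
  classical
  have h1 : ContinuousOn (fun z : ℂ => ENNReal.ofReal (Real.posLog ‖F z‖)) P :=
    (ENNReal.continuous_ofReal.comp posLog_cont).comp_continuousOn hF.norm
  have h2 : ContinuousOn (fun _ : ℂ => (⊤ : ENNReal)) Pᶜ := continuousOn_const
  have h3 := h1.measurable_piecewise h2 hP.measurableSet
  have h4 : mv P F = P.piecewise (fun z : ℂ => ENNReal.ofReal (Real.posLog ‖F z‖))
      (fun _ : ℂ => (⊤ : ENNReal)) := by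
    funext z
    by_cases hz : z ∈ P
    · simp [mv, hz]
    · simp [mv, hz]
  rw [h4]
  exact h3

end Pool.Agent.W433.HY.MVM
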